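import Mathlib
import Pool.Agent.X115.PR.Bounds2
import Pool.Agent.X115.PR.Dense
import Pool.Agent.X115.PR.Root4

/-!
# Root vectors of the point-restart Laplacian form a basis for rational restart points

Write `a = (n₁ - n₂) / (n₁ + n₂)` with coprime `n₁, n₂ ≥ 1` and `h = π / (n₁ + n₂)`; the restart point is
`n₁ h - π/2 = π/2 - n₂ h`.  The root system consists of `cos (2 π j x / (n₁ h))` (`j ≥ 0`),
`cos (2 π j x / (n₂ h))` (`n₂ ∤ j`), `x sin (2 π j x / h)` (`j ≥ 1`) and, for `m ≥ 1`, of `sin (2 m x)`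
if `n₁ + n₂ ∣ m` and `cos (2 m (x - n₁ h / 2))` otherwise.  Up to the odd functions, a finite linear
combination is `A + B + x G` with `A` of period `n₁ h`, `B` of period `n₂ h` and `G` of period `h`;
the values on the `n₁ + n₂` cells of length `h` determine the three parts with bounded constants
(`B` has mean zero over the residue classes), which gives the two-sided bounds.
-/

set_option autoImplicit false

open Finset Filter Topology MeasureTheory

namespace Pool.Agent.Results.MP_1ebdda_an.RieszBasis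

noncomputable section

/-- Lebesgue measure on the interval `(-π/2, π/2)`. -/
abbrev mu : Measure ℝ := volume.restrict (Set.Ioo (-(Real.pi / 2)) (Real.pi / 2))

/-- The complex Hilbert space `L²((-π/2, π/2))`. -/
abbrev L2 := Lp ℂ 2 mu

/-- `ψ` lies in the domain of `H` and `H ψ = φ`: on `[-π/2, π/2]` the function `ψ` has the
representative `u` with `u(x) = u(-π/2) + ∫ v` and `v(x) = v(-π/2) - ∫ φ` (integrals from `-π/2` to
`x`), that is `ψ ∈ H²`, `ψ' = v`, `-ψ'' = φ`; and `u(-π/2) = u(π a / 2) = u(π/2)`. -/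
def IsH (a : ℝ) (ψ φ : L2) : Prop :=
  ∃ u v : ℝ → ℂ, ψ =ᵐ[mu] u ∧
    (∀ x ∈ Set.Icc (-(Real.pi / 2)) (Real.pi / 2),
      u x = u (-(Real.pi / 2)) + ∫ t in (-(Real.pi / 2))..x, v t) ∧
    (∀ x ∈ Set.Icc (-(Real.pi / 2)) (Real.pi / 2),
      v x = v (-(Real.pi / 2)) - ∫ t in (-(Real.pi / 2))..x, φ t) ∧
    u (-(Real.pi / 2)) = u (Real.pi / 2 * a) ∧ u (Real.pi / 2 * a) = u (Real.pi / 2)

/-- `ψ ∈ ker (H - z)^k`. -/
def InKer (a : ℝ) (z : ℂ) : ℕ → L2 → Prop
  | 0, ψ => ψ = 0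
  | k + 1, ψ => ∃ φ, IsH a ψ φ ∧ InKer a z k (φ - z • ψ)

/-- The sequence `ψ` is an enumerated root system of `H`: with suitable numbers `ev j`, for every
complex `z` the `ψ j` with `ev j = z` are linearly independent and span the root subspace
`⋃ₖ ker (H - z)^k`. -/
def IsRootSystem (a : ℝ) (ψ : ℕ → L2) : Prop :=
  ∃ ev : ℕ → ℂ, ∀ z : ℂ, LinearIndependent ℂ (fun j : {j : ℕ // ev j = z} => ψ j) ∧
    ∀ f : L2, f ∈ Submodule.span ℂ (ψ '' {j | ev j = z}) ↔ ∃ k, InKer a z k f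

/-- Every `f` has a unique expansion whose partial sums, in the given order, converge to `f`. -/
def IsSchauder (ψ : ℕ → L2) : Prop :=
  ∀ f : L2, ∃! c : ℕ → ℂ, Tendsto (fun n => ∑ j ∈ range n, c j • ψ j) atTop (𝓝 f)

lemma inKer_iff (a : ℝ) (z : ℂ) (k : ℕ) (f : L2) :
    InKer a z k f ↔ Pool.Agent.X115.PR.InKer a z k f := by
  induction k generalizing f with
  | zero => exact Iff.rfl
  | succ k ih => exact exists_congr fun φ => and_congr Iff.rfl (ih _)

lemma exists_coprime' {a : ℚ} (h1 : -1 < a) (h2 : a < 1) : ∃ n1 n2 : ℕ, 0 < n1 ∧ 0 < n2 ∧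
    Nat.Coprime n1 n2 ∧ (a : ℝ) = ((n1 : ℝ) - n2) / (n1 + n2) := by
  have hd : (0 : ℚ) < a.den := by exact_mod_cast a.den_pos
  have h1' : (-(a.den : ℤ)) < a.num := by
    rw [← Rat.num_div_den a, lt_div_iff₀ hd] at h1
    have : (-(a.den : ℚ)) < a.num := by linarith
    exact_mod_cast this
  have h2' : a.num < (a.den : ℤ) := by
    rw [← Rat.num_div_den a, div_lt_iff₀ hd] at h2
    have : (a.num : ℚ) < a.den := by linarith
    exact_mod_cast this
  obtain ⟨P, hP⟩ := Int.eq_ofNat_of_zero_le (a := a.den + a.num) (by omega)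
  obtain ⟨Q, hQ⟩ := Int.eq_ofNat_of_zero_le (a := a.den - a.num) (by omega)
  have hP0 : 0 < P := by omega
  have hQ0 : 0 < Q := by omega
  obtain ⟨n1, n2, hc, e1, e2⟩ := Nat.exists_coprime P Q
  have hg : 0 < P.gcd Q := Nat.gcd_pos_of_pos_left _ hP0
  have hn1 : 0 < n1 := Nat.pos_of_ne_zero fun h => by rw [h, zero_mul] at e1; omega
  have hn2 : 0 < n2 := Nat.pos_of_ne_zero fun h => by rw [h, zero_mul] at e2; omega
  refine ⟨n1, n2, hn1, hn2, hc, ?_⟩
  set g := P.gcd Q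
  have e3 : (a.den : ℝ) + a.num = n1 * g := by
    have h3 : (a.den : ℤ) + a.num = ((n1 * g : ℕ) : ℤ) := by rw [← e1]; exact hP
    exact_mod_cast h3
  have e4 : (a.den : ℝ) - a.num = n2 * g := by
    have h3 : (a.den : ℤ) - a.num = ((n2 * g : ℕ) : ℤ) := by rw [← e2]; exact hQ
    exact_mod_cast h3
  have hg' : (0 : ℝ) < g := by exact_mod_cast hg
  have p1 : (0 : ℝ) < n1 := by exact_mod_cast hn1
  have p2 : (0 : ℝ) < n2 := by exact_mod_cast hn2
  have hdr : (0 : ℝ) < a.den := by exact_mod_cast a.den_pos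
  rw [Rat.cast_def, div_eq_div_iff hdr.ne' (by positivity)]
  have e5 : (a.num : ℝ) = (n1 - n2) * g / 2 := by linarith
  have e6 : (a.den : ℝ) = (n1 + n2) * g / 2 := by linarith
  rw [e5, e6]
  ring

/-- **Main result.** For every rational `a ∈ (-1, 1)` some root system of `H`, enumerated in any
order, is a Schauder basis of `L²((-π/2, π/2))`; it satisfies the two-sided bounds of a Riesz
basis. -/
theorem result (a : ℚ) (h1 : -1 < a) (h2 : a < 1) :
    ∃ ψ : ℕ → L2, IsRootSystem a ψ ∧ (∀ σ : Equiv.Perm ℕ, IsSchauder (ψ ∘ σ)) ∧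
      ∃ A B : ℝ, 0 < A ∧ 0 < B ∧ ∀ (s : Finset ℕ) (c : ℕ → ℂ),
        A * ∑ j ∈ s, ‖c j‖ ^ 2 ≤ ‖∑ j ∈ s, c j • ψ j‖ ^ 2 ∧
        ‖∑ j ∈ s, c j • ψ j‖ ^ 2 ≤ B * ∑ j ∈ s, ‖c j‖ ^ 2 := by
  obtain ⟨n1, n2, p1, p2, hc, ha⟩ := exists_coprime' h1 h2
  obtain ⟨e⟩ : Nonempty (ℕ ≃ Pool.Agent.X115.PR.Ind n2) := nonempty_equiv_of_countable
  obtain ⟨A, B, hAB⟩ := Pool.Agent.X115.PR.bds p1 p2 hc
  have hd := Pool.Agent.X115.PR.dense p1 p2 hc
  set ψ : Pool.Agent.X115.PR.Ind n2 → L2 := fun i =>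
    Pool.Agent.X115.PR.el (Pool.Agent.X115.PR.gI n1 n2 i) with hψ
  have hli : LinearIndependent ℂ ψ := by
    rw [linearIndependent_iff']
    intro s c hs i hi
    have h3 := hAB.lo s c
    have h4 : ∑ j ∈ s, c j • ψ j = 0 := hs
    rw [h4, norm_zero] at h3
    have h5 : ‖c i‖ ^ 2 ≤ ∑ j ∈ s, ‖c j‖ ^ 2 :=
      Finset.single_le_sum (f := fun j => ‖c j‖ ^ 2) (fun _ _ => by positivity) hi
    have h6 : ‖c i‖ ^ 2 ≤ 0 := by
      refine h5.trans (h3.trans ?_)
      simp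
    have h7 : ‖c i‖ = 0 := pow_eq_zero_iff (by norm_num) |>.mp (le_antisymm h6 (by positivity))
    exact norm_eq_zero.mp h7
  refine ⟨ψ ∘ e, ⟨Pool.Agent.X115.PR.evI n1 n2 ∘ e, fun z => ⟨?_, fun f => ?_⟩⟩, fun σ => ?_,
    1 / A, B, ?_, hAB.B0, fun s c => ⟨?_, (hAB.comp e).up s c⟩⟩
  · exact (hli.comp e e.injective).comp _ Subtype.val_injective
  · have h3 := Pool.Agent.X115.PR.root_iff p1 p2 hc ha z f
    have h4 : (ψ ∘ e) '' {j | (Pool.Agent.X115.PR.evI n1 n2 ∘ e) j = z} =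
        ψ '' {i | Pool.Agent.X115.PR.evI n1 n2 i = z} := by
      ext x
      constructor
      · rintro ⟨j, hj, rfl⟩
        exact ⟨e j, hj, rfl⟩
      · rintro ⟨i, hi, rfl⟩
        refine ⟨e.symm i, ?_, ?_⟩
        · show Pool.Agent.X115.PR.evI n1 n2 (e (e.symm i)) = z
          rw [e.apply_symm_apply]
          exact hi
        · show ψ (e (e.symm i)) = ψ i
          rw [e.apply_symm_apply]
    rw [h4]
    refine h3.trans (exists_congr fun k => ?_)
    exact (inKer_iff a z k f).symm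
  · have h3 := hAB.comp (σ.trans e)
    refine h3.schauder ?_
    rw [(σ.trans e).surjective.range_comp]
    exact hd
  · have := hAB.A0
    positivity
  · have h3 := (hAB.comp e).lo s c
    have h4 := hAB.A0
    rw [one_div, inv_mul_le_iff₀ h4]
    exact h3

end

end Pool.Agent.Results.MP_1ebdda_an.RieszBasis
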